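import Pool.Agent.Helper842_Wye.Main1

set_option autoImplicit false

namespace Pool.Agent.Results.MP_ed556a_co.NotHull

open Pool.Agent.Helper842.Wye

/-- Some limiting pair of path and star densities lies outside the hull of the millipede points. -/
theorem result : ∃ q : ℝ × ℝ, q ∈ limitSet ∧ q ∉ hullC := not_hull

end Pool.Agent.Results.MP_ed556a_co.NotHull
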