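import Pool.Agent.Helper842_Wye.Global
import Pool.Agent.Helper842_Wye.Sharp

set_option autoImplicit false

namespace Pool.Agent.Results.MP_ed556a_co.WyeBound

open Pool.Agent.Helper842.Wye

/-- Every finite tree `T` satisfies `Y(T) ≤ 9 S(T) + P(T) + 6`, and the constant `6` is the least
possible. -/
theorem result : IsLeast {K : ℕ | ∀ (V : Type) [Fintype V] (T : SimpleGraph V), T.IsTree →
    T.copyCount wyeFive ≤ 9 * T.copyCount starFive + T.copyCount pathFive + K} 6 := by
  constructor
  · intro V _ T hT
    classical
    exact main_ineq T hT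
  · intro K hK
    have h := hK (Fin 12) TS TS_isTree
    obtain ⟨h1, h2, h3⟩ := TS_counts
    rw [h1, h2, h3] at h
    omega

end Pool.Agent.Results.MP_ed556a_co.WyeBound
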